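import Pool.Agent.Helper80.RV.COR0

/-!
# RV9: the two inequalities for the limits of the local values

After `core_i` of `Pool/Agent/Helper68/ZS/COI.lean` (helper68), from `core0_rv`, `ver_mi` and `ver_ti`.
-/

set_option autoImplicit false
set_option linter.unusedSectionVars false

namespace Pool.Agent.SQ.RV

open NumberField Filter Module MvPolynomial
open Pool.Agent.Helper64.Vojta (Pl nv sn above)
open Pool.Agent.V2
open Pool.Agent.Chart (fld dg crd hgt)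
open Pool.Agent.ZS (HQ mem_HQ)

universe u

/-- representatives of the left cosets -/
private theorem cosets64 {G : Type} [Group G] [Fintype G] (Hs : Subgroup G) :
    ∃ (r : ℕ) (ρ : Fin r → G), ∀ g, ∃! j, (ρ j)⁻¹ * g ∈ Hs := by
  classical
  refine ⟨Fintype.card (G ⧸ Hs), fun j => ((Fintype.equivFin (G ⧸ Hs)).symm j).out, fun g => ?_⟩
  refine ⟨Fintype.equivFin (G ⧸ Hs) (g : G ⧸ Hs), ?_, fun j hj => ?_⟩
  · show (((Fintype.equivFin (G ⧸ Hs)).symm (Fintype.equivFin (G ⧸ Hs) (g : G ⧸ Hs))).out)⁻¹ * g ∈ Hs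
    rw [← QuotientGroup.eq, Equiv.symm_apply_apply, QuotientGroup.out_eq']
  · have hj' : (((Fintype.equivFin (G ⧸ Hs)).symm j).out)⁻¹ * g ∈ Hs := hj
    rw [← QuotientGroup.eq, QuotientGroup.out_eq'] at hj'
    rw [← hj', Equiv.apply_symm_apply]

/-- the sum over the index set -/
private theorem ksum64 {G : Type} [Fintype G] [DecidableEq G] {P : Type u} (S : Finset P)
    (T : P → Finset G) (a : P → ℝ) (F : ↥S × G → ℝ) :
    ∑ l : ↥S × G, (if l.2 ∈ T l.1 then a l.1 else 0) * F l = ∑ v : S, a v * ∑ g ∈ T v, F (v, g) := by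
  rw [Fintype.sum_prod_type]
  refine Finset.sum_congr rfl fun v _ => ?_
  simp only [ite_mul, zero_mul]
  rw [Finset.mul_sum, ← Finset.sum_filter]
  refine Finset.sum_congr ?_ fun _ _ => rfl
  ext g
  simp

/-- RV9 -/
theorem core_irv {k : Type u} [Field k] [NumberField k] {N q e : ℕ} (P : Ideal (MvPolynomial (Fin (N + 1)) k)) [hPp : P.IsPrime]
    (hP : ∀ p ∈ P, ∀ m, homogeneousComponent m p ∈ P) (d : Fin q → Fin e → ℕ)
    (f : Fin q → Fin e → MvPolynomial (Fin (N + 1)) k) (hf : ∀ i j, (f i j).IsHomogeneous (d i j)) (β : Fin q → ℝ)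
    (hβ0 : ∀ i, 0 < β i) (hβ : ∀ i, ∀ δ : ℝ, 0 < δ → ∀ᶠ m : ℕ in atTop, ∃ K : ℕ,
      (β i - δ) * (m * hilb P m) ≤ ∑ x ∈ Finset.range K, (dimf P (sat (P ⊔ idl f i ^ (x + 1))) m : ℝ))
    {ε : ℝ} (hε : 0 < ε) :
    ∃ Q : MvPolynomial (Fin (N + 1)) k, Q ∉ P ∧ (∃ e, Q.IsHomogeneous e) ∧
      ∀ {G : Type} [Group G] [Fintype G] {D : SqG k G} (y : ∀ a, Fin (N + 1) → D.L a), Ptg D y →
        (∀ a, ∀ p ∈ P, aeval (y a) p = 0) → (∀ a, aeval (y a) Q ≠ 0) →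
        ∀ (S : Finset (Pl k)) (T : Pl k → Finset (Fin q)), (∀ v ∈ S, GenPos P (idl f) (T v)) →
        (∀ a, ∀ v ∈ S, ∀ i ∈ T v, ∃ j, aeval (y a) (f i j) ≠ 0) →
        ∀ (L : Pl k → G → Fin q → ℝ), (∀ v ∈ S, ∀ g, ∀ i ∈ T v, 0 ≤ L v g i) →
        (∀ v ∈ S, ∀ g, ∀ i ∈ T v, LB D (fun a => gamJ (D.s a) (D.N a) (y a) (d i) (f i) v g) (L v g i)) →
        (∀ (Hs : Subgroup G), (∀ a, ∀ h ∈ Hs, ∀ j, D.s a h (y a j) = y a j) →
          ∀ (Gd Tg : Pl k → Finset G),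
          (∀ a, ∀ v ∈ S, ∀ u ∈ Gd v, ∀ g ∈ Tg v, ∀ z : D.L a, (∀ h ∈ Hs, D.s a h z = z) →
            D.N a v (D.s a (u * g) z) = D.N a v (D.s a g z)) →
          ∑ v ∈ S, ((Gd v).card : ℝ) * ∑ g ∈ Tg v, ((1 - ε) * ∑ i ∈ T v, β i * L v g i) ≤ Fintype.card G) ∧
        (∀ (H : Subgroup G), H.IsSubnormal → (∀ n, ∀ h ∈ H, ∀ j, D.s n h (y n j) = y n j) →
          ∑ v ∈ S, ∑ g, ((1 - ε) * ∑ i ∈ T v, β i * L v g i) ≤ H.index) := by
  classical
  obtain ⟨m, Q, hm, hQ, hQh, hcore⟩ := core0_rv P hP d f hf β hβ0 hβ hε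
  refine ⟨Q, hQ, hQh, ?_⟩
  intro G _ _ D y hy hyI hyQ S T hT hyf L hL0 hL
  have hmR : (0 : ℝ) < m := by exact_mod_cast hm
  refine ⟨?_, ?_⟩
  · intro Hs hH Gd Tg hC
    obtain ⟨r, ρ, hρ⟩ := cosets64 Hs
    obtain ⟨V', hV', hpos, R, e', σ, heh, heV, heI, heS, hmain⟩ := hcore y hy hyI hyQ
      (Λ := ↥S × G) (fun l => T l.1) (fun l => hT _ l.1.2) (fun a l => hyf a _ l.1.2)
      (fun l => l.1) (fun l => l.2) (fun l => L l.1 l.2)
      (fun l => hL0 _ l.1.2 _) (fun l => hL _ l.1.2 _)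
      (fun l => if l.2 ∈ Tg l.1 then ((Gd l.1).card : ℝ) else 0) (fun l => by
        split_ifs
        · exact Nat.cast_nonneg _
        · exact le_rfl)
    have hD0 : (0 : ℝ) < finrank k V' := by exact_mod_cast hpos
    rw [ksum64 S Tg (fun v => ((Gd v).card : ℝ)), ksum64 S Tg (fun v => ((Gd v).card : ℝ))] at hmain
    have hf1 : ∀ (v : Pl k) (g : G), ∃ (n : ℕ) (e₁ : Fin n → MvPolynomial (Fin (N + 1)) k) (σ₁ : Fin n → ℝ),
        (∀ i, (e₁ i).IsHomogeneous m) ∧ ∀ h : v ∈ S, (∀ i, Ideal.Quotient.mk (vanI D y) (e₁ i) ∈ V') ∧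
        (LinearIndependent k fun i => Ideal.Quotient.mk (vanI D y) (e₁ i)) ∧
        (∀ i, e₁ i ∈ Submodule.span k {p : MvPolynomial (Fin (N + 1)) k | p.IsHomogeneous m ∧ (p ∈ vanI D y ∨
              LB D (fun a => gam (D.s a) (D.N a) (y a) m p v g) (σ₁ i))}) ∧
        ∑ i, σ₁ i = ∑ i, σ (⟨v, h⟩, g) i := by
      intro v g
      by_cases h : v ∈ S
      · exact ⟨R (⟨v, h⟩, g), e' (⟨v, h⟩, g), σ (⟨v, h⟩, g), heh _, fun _ =>
          ⟨heV _, heI _, heS (⟨v, h⟩, g), rfl⟩⟩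
      · exact ⟨0, Fin.elim0, Fin.elim0, fun i => i.elim0, fun h' => absurd h' h⟩
    choose n₁ e₁ σ₁ he₁h he₁ using hf1
    have hver := ver_mi hm y hy S Hs hH (fun _ => True) Gd Tg (fun a v hv _ => hC a v hv) ρ hρ V' hV' n₁ e₁ he₁h
      (fun v hv g => (he₁ v g hv).2.1) (fun v hv g => (he₁ v g hv).1) σ₁ (fun v hv g => (he₁ v g hv).2.2.1)
      (fun _ _ => 0) (fun _ _ _ => le_rfl) (fun _ _ => 0) (fun _ _ => Fin.elim0) (fun _ _ i => i.elim0)
      (fun _ _ _ => linearIndependent_empty_type) (fun _ _ _ i => i.elim0) (fun _ _ => Fin.elim0)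
      (fun _ _ _ i => i.elim0) (fun _ _ _ i => i.elim0)
    simp only [if_true] at hver
    rw [← Finset.sum_coe_sort S] at hver ⊢
    rw [Finset.sum_congr rfl fun (v : S) _ => congrArg (fun z => ((Gd v).card : ℝ) * z)
      (Finset.sum_congr rfl fun g _ => (he₁ v g v.2).2.2.2)] at hver
    refine le_of_mul_le_mul_left ?_ (mul_pos hD0 hmR)
    rw [mul_assoc]
    refine hmain.trans (hver.trans (le_of_eq ?_))
    ring
  · intro H hHs hxH
    have fq : Fintype (G ⧸ H) := Fintype.ofFinite _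
    obtain ⟨V', hV', hpos, R, e', σ, heh, heV, heI, heS, hmain⟩ := hcore y hy hyI hyQ
      (Λ := ↥S × G) (fun l => T l.1) (fun l => hT _ l.1.2) (fun a l => hyf a _ l.1.2)
      (fun l => l.1) (fun l => l.2) (fun l => L l.1 l.2)
      (fun l => hL0 _ l.1.2 _) (fun l => hL _ l.1.2 _) (fun _ => 1) (fun _ => zero_le_one)
    have hD0 : (0 : ℝ) < finrank k V' := by exact_mod_cast hpos
    simp only [one_mul] at hmain
    rw [Fintype.sum_prod_type, Fintype.sum_prod_type] at hmain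
    have hf1 : ∀ (v : Pl k) (g : G), ∃ (n : ℕ) (e₁ : Fin n → MvPolynomial (Fin (N + 1)) k) (σ₁ : Fin n → ℝ),
        (∀ i, (e₁ i).IsHomogeneous m) ∧ ∀ h : v ∈ S, (∀ i, Ideal.Quotient.mk (vanI D y) (e₁ i) ∈ V') ∧
        (LinearIndependent k fun i => Ideal.Quotient.mk (vanI D y) (e₁ i)) ∧
        (∀ i, e₁ i ∈ Submodule.span k {p : MvPolynomial (Fin (N + 1)) k | p.IsHomogeneous m ∧ (p ∈ vanI D y ∨
              LB D (fun a => gam (D.s a) (D.N a) (y a) m p v g) (σ₁ i))}) ∧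
        ∑ i, σ₁ i = ∑ i, σ (⟨v, h⟩, g) i := by
      intro v g
      by_cases h : v ∈ S
      · exact ⟨R (⟨v, h⟩, g), e' (⟨v, h⟩, g), σ (⟨v, h⟩, g), heh _, fun _ =>
          ⟨heV _, heI _, heS (⟨v, h⟩, g), rfl⟩⟩
      · exact ⟨0, Fin.elim0, Fin.elim0, fun i => i.elim0, fun h' => absurd h' h⟩
    choose n₁ e₁ σ₁ he₁h he₁ using hf1
    have hver := ver_ti hm y hHs hy hxH S V' hV' n₁ e₁ he₁h (fun v hv g => (he₁ v g hv).2.1)
      (fun v hv g => (he₁ v g hv).1) σ₁ (fun v hv g => (he₁ v g hv).2.2.1)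
    rw [← Finset.sum_coe_sort S] at hver ⊢
    rw [Finset.sum_congr rfl fun (v : S) _ => Finset.sum_congr rfl fun g _ => (he₁ v g v.2).2.2.2] at hver
    refine le_of_mul_le_mul_left ?_ (mul_pos hD0 hmR)
    rw [mul_assoc]
    refine hmain.trans (hver.trans (le_of_eq ?_))
    ring

end Pool.Agent.SQ.RV
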